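import Pool.Agent.Helper43.DV.La
import Pool.Agent.Helper97.DV.Bx
import Pool.Agent.Helper97.DV.Zl
import Pool.Agent.Helper35.MD.Defs

/-!
# Project DV (MP_973bc8_pr), block LOOP: the two point lemma (J)

`S` is a domain with even boundary and connected complement, `C` the nn cluster of the boundary in
`{|h| ≤ 1}`.  Given `C` and the values on `C`, the components of `S \ C` have boundary value `2` or `-2`
and are independent, so `cv S x y ≤ 4 + P(x, y joined in S \ C) cv S x y`.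
-/

open Finset RP4

namespace DV

/-- the sites of `S` with height `-1`, `0` or `1` -/
def lpT (S : Set V) (h : V → ℤ) : Set V := {v | v ∈ S ∧ |h v| ≤ 1}

/-- the nn cluster of the boundary in `{|h| ≤ 1}` -/
def lpC (S : Finset V) (h : V → ℤ) : Set V := clus (lpT (S : Set V) h) (bdry S : Set V)

/-- its complement in `S` -/
def lpU (S : Finset V) (h : V → ℤ) : Set V := {v | v ∈ S ∧ v ∉ lpC S h}

section basic

variable {S : Finset V} {h g : V → ℤ}

lemma lpC_sub_T : lpC S h ⊆ lpT (S : Set V) h := clus_sub _ _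

lemma lpC_sub : lpC S h ⊆ (S : Set V) := fun _ hv => (lpC_sub_T hv).1

lemma lpC_le {v : V} (hv : v ∈ lpC S h) : |h v| ≤ 1 := (lpC_sub_T hv).2

lemma bdry_sub_lpC (hh : h ∈ Om S) : (bdry S : Set V) ⊆ lpC S h := by
  intro v hv
  refine sub_clus hv ⟨bdry_subset S hv, ?_⟩
  rw [(mem_Om.1 hh).2 v hv]
  norm_num

lemma lpU_sub : lpU S h ⊆ (S : Set V) := fun _ hv => hv.1

lemma lpU_compl_cnn (hc : Cnn (S : Set V)ᶜ) (hh : h ∈ Om S) : Cnn (lpU S h)ᶜ := by
  have hsub : (S : Set V)ᶜ ⊆ (lpU S h)ᶜ := fun v hv hv' => hv hv'.1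
  have hC : lpC S h ⊆ (lpU S h)ᶜ := fun v hv hv' => hv'.2 hv
  have key : ∀ u ∈ (lpU S h)ᶜ, ∃ o ∈ (S : Set V)ᶜ, Con (lpU S h)ᶜ u o := by
    intro u hu
    by_cases huS : u ∈ S
    · have huC : u ∈ lpC S h := by
        by_contra h'
        exact hu ⟨huS, h'⟩
      obtain ⟨b, hb, hb'⟩ := huC
      have h1 : b ∈ lpC S h := bdry_sub_lpC hh hb
      have h2 : Con (lpC S h) b u := clus_con h1 hb'
      obtain ⟨_, z, hz, hz'⟩ := mem_bdry.1 hb
      refine ⟨z, hz', ?_⟩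
      exact (h2.symm'.mono (fun _ _ h => h) hC).step (adj_symm hz) (hsub hz')
    · exact ⟨u, huS, Jn.refl hu⟩
  intro u hu v hv
  obtain ⟨o, ho, ho'⟩ := key u hu
  obtain ⟨o2, ho2, ho2'⟩ := key v hv
  exact (ho'.trans ((hc o ho o2 ho2).mono (fun _ _ h => h) hsub)).trans ho2'.symm'

/-- values at outer neighbours of the cluster -/
lemma lp_nbr (hh : h ∈ Om S) {z w : V} (hz : z ∈ lpC S h) (hw : w ∈ S) (hw' : w ∉ lpC S h)
    (hzw : Adj z w) : h w = 2 * h z := by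
  have h1 := lpC_le hz
  have h2 : ¬ |h w| ≤ 1 := fun h' => hw' (clus_step hz hzw ⟨hw, h'⟩)
  have h3 := (mem_Om.1 hh).1.step z (lpC_sub hz) w hw hzw
  rw [abs_le] at h1 h2
  rw [abs_eq (by norm_num)] at h3
  omega

/-- a boundary site of a component has a neighbour in the cluster -/
lemma lp_bd (hh : h ∈ Om S) {y u z : V} (hu : u ∈ comp (lpU S h) y) (huz : Adj u z)
    (hz : z ∉ comp (lpU S h) y) : z ∈ lpC S h := by
  have huU := comp_sub _ _ hu
  have hzS : z ∈ S := by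
    by_contra h'
    exact huU.2 (bdry_sub_lpC hh (mem_bdry.2 ⟨huU.1, z, adj_symm huz, h'⟩))
  by_contra h'
  exact hz (comp_step hu huz ⟨hzS, h'⟩)

lemma lp_even (hh : h ∈ Om S) {v : V} (hv : v ∈ S) (he : Even (h v)) : Even (par v) := by
  have h1 := (mem_Om.1 hh).1.par v hv
  rw [sub_zero] at h1
  have h2 := he.sub h1
  rwa [sub_sub_cancel] at h2

lemma lp_bd_even (hh : h ∈ Om S) {y u : V} (hu : u ∈ Bd (comp (lpU S h) y)) : Even (par u) := by
  obtain ⟨hu, z, huz, hz⟩ := hu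
  have huU := comp_sub _ _ hu
  have h1 := lp_nbr hh (lp_bd hh hu huz hz) huU.1 huU.2 (adj_symm huz)
  exact lp_even hh huU.1 (h1 ▸ even_two_mul _)

/-- the boundary values of a component agree -/
lemma lp_label (hc : Cnn (S : Set V)ᶜ) (hh : h ∈ Om S) {y u u' : V}
    (hu : u ∈ Bd (comp (lpU S h) y)) (hu' : u' ∈ Bd (comp (lpU S h) y)) : h u = h u' := by
  obtain ⟨o, ho⟩ : (lpU S h)ᶜ.Nonempty := by
    obtain ⟨hu, z, huz, hz⟩ := hu
    exact ⟨z, fun h' => h'.2 (lp_bd hh hu huz hz)⟩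
  have hcc := compl_comp_cnn (x := y) (lpU_compl_cnn hc hh) ⟨o, ho⟩
  refine label_const' (U := comp (lpU S h) y) (s := h)
    (not_adj_of_par (q := 0) fun b hb => by simpa using lp_bd_even hh hb) (comp_cnn _ _) ?_ ?_ hu hu'
  · intro z hz z' hz'
    exact (hcc z hz z' hz').mono (fun _ _ h => adj_kng h) (fun _ h => h)
  · intro z b c d hz hb _ hd hzb hzd _ _ _
    have hbU := comp_sub _ _ hb
    have hdU := comp_sub _ _ hd
    have h1 := lp_bd hh hb (adj_symm hzb) hz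
    rw [lp_nbr hh h1 hbU.1 hbU.2 hzb, lp_nbr hh h1 hdU.1 hdU.2 hzd]

/-- changing the heights inside components does not change the cluster -/
lemma lp_mod {U : Set V} (hg : g ∈ Om S) {g' : V → ℤ} (hg' : IsHom S 0 g') (hU : U ⊆ lpU S g)
    (he : ∀ v, v ∉ U ∨ v ∈ Bd U → g' v = g v) :
    g' ∈ Om S ∧ lpC S g' = lpC S g ∧ ∀ v ∈ lpC S g, g' v = g v := by
  have hC : ∀ v ∈ lpC S g, g' v = g v := fun v hv => he v (Or.inl fun h' => (hU h').2 hv)
  refine ⟨mem_Om.2 ⟨hg', fun v hv => ?_⟩, ?_, hC⟩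
  · rw [hC v (bdry_sub_lpC hg hv), (mem_Om.1 hg).2 v hv]
  · refine clus_congr (fun v hv => ?_) (fun u hu v huv => ?_)
    · show (v ∈ (S : Set V) ∧ |g v| ≤ 1) ↔ (v ∈ (S : Set V) ∧ |g' v| ≤ 1)
      rw [hC v (bdry_sub_lpC hg hv)]
    · show (v ∈ (S : Set V) ∧ |g v| ≤ 1) ↔ (v ∈ (S : Set V) ∧ |g' v| ≤ 1)
      rw [he v]
      by_cases hv : v ∈ U
      · exact Or.inr ⟨hv, u, adj_symm huv, fun h' => (hU h').2 hu⟩
      · exact Or.inl hv

end basic

section fibre

variable {S : Finset V} {h0 : V → ℤ}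

open Classical in
/-- the data on which we condition -/
noncomputable def lpK (S : Finset V) (h : V → ℤ) : Set V × (V → ℤ) :=
  (lpC S h, fun v => if v ∈ lpC S h then h v else 0)

lemma lpK_eq {S : Finset V} {g h : V → ℤ} :
    lpK S g = lpK S h ↔ lpC S g = lpC S h ∧ ∀ v ∈ lpC S h, g v = h v := by
  classical
  unfold lpK
  rw [Prod.mk.injEq]
  constructor
  · rintro ⟨h1, h2⟩
    refine ⟨h1, fun v hv => ?_⟩
    have h3 := congrFun h2 v
    rwa [if_pos (h1 ▸ hv), if_pos hv] at h3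
  · rintro ⟨h1, h2⟩
    refine ⟨h1, ?_⟩
    funext v
    by_cases hv : v ∈ lpC S h
    · rw [if_pos (h1 ▸ hv), if_pos hv, h2 v hv]
    · rw [if_neg (h1 ▸ hv), if_neg hv]

open Classical in
/-- the fibre -/
noncomputable def lpF (S : Finset V) (h0 : V → ℤ) : Finset (V → ℤ) :=
  (Om S).filter fun g => lpK S g = lpK S h0

lemma mem_lpF {g : V → ℤ} :
    g ∈ lpF S h0 ↔ g ∈ Om S ∧ lpC S g = lpC S h0 ∧ ∀ v ∈ lpC S h0, g v = h0 v := by
  classical
  unfold lpF
  rw [Finset.mem_filter, lpK_eq]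

lemma lpU_eq {g : V → ℤ} (hg : g ∈ lpF S h0) : lpU S g = lpU S h0 := by
  unfold lpU
  rw [(mem_lpF.1 hg).2.1]

lemma lpF_mod {U : Set V} {g g' : V → ℤ} (hg : g ∈ lpF S h0) (hg' : IsHom S 0 g')
    (hU : U ⊆ lpU S h0) (he : ∀ v, v ∉ U ∨ v ∈ Bd U → g' v = g v) : g' ∈ lpF S h0 := by
  obtain ⟨h1, h2, h3⟩ := mem_lpF.1 hg
  obtain ⟨i1, i2, i3⟩ := lp_mod h1 hg' (lpU_eq hg ▸ hU) he
  refine mem_lpF.2 ⟨i1, i2.trans h2, fun v hv => ?_⟩
  rw [i3 v (h2 ▸ hv), h3 v hv]

/-- the common boundary value of a component -/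
lemma lp_val (hc : Cnn (S : Set V)ᶜ) (y : V) (h0m : h0 ∈ Om S) :
    ∃ c : ℤ, |c| ≤ 2 ∧ Even c ∧ ∀ g ∈ lpF S h0, ∀ u ∈ Bd (comp (lpU S h0) y), g u = c := by
  rcases (Bd (comp (lpU S h0) y)).eq_empty_or_nonempty with h | ⟨u0, hu0⟩
  · exact ⟨0, by norm_num, Even.zero, fun g _ u hu => absurd hu (h ▸ Set.notMem_empty u)⟩
  · have hu0' := hu0
    obtain ⟨k1, z, k2, k3⟩ := hu0'
    have hz := lp_bd h0m k1 k2 k3
    have huU := comp_sub _ _ k1
    refine ⟨2 * h0 z, ?_, even_two_mul _, fun g hg u hu => ?_⟩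
    · have := lpC_le hz
      rw [abs_le] at this ⊢
      constructor <;> linarith
    · obtain ⟨h1, h2, h3⟩ := mem_lpF.1 hg
      rw [← lpU_eq hg] at hu hu0
      rw [lp_label hc h1 hu hu0, lp_nbr h1 (h2 ▸ hz) huU.1 (h2 ▸ huU.2) (adj_symm k2), h3 z hz]

open Classical in
/-- reflection of the values on `U` at the level `c` -/
noncomputable def lpR (U : Set V) (c : ℤ) (g : V → ℤ) : V → ℤ :=
  fun v => if v ∈ U then 2 * c - g v else g v

lemma lpR_mem {U : Set V} {c : ℤ} {g : V → ℤ} {v : V} (h : v ∈ U) : lpR U c g v = 2 * c - g v :=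
  if_pos h

lemma lpR_not {U : Set V} {c : ℤ} {g : V → ℤ} {v : V} (h : v ∉ U) : lpR U c g v = g v :=
  if_neg h

lemma lpR_R (U : Set V) (c : ℤ) (g : V → ℤ) : lpR U c (lpR U c g) = g := by
  funext v
  by_cases hv : v ∈ U
  · rw [lpR_mem hv, lpR_mem hv]
    ring
  · rw [lpR_not hv, lpR_not hv]

lemma lpR_hom {U : Set V} {c : ℤ} {g : V → ℤ} (hg : IsHom S 0 g) (hU : U ⊆ (S : Set V))
    (hb : ∀ u ∈ Bd U, g u = c) : IsHom S 0 (lpR U c g) := by
  have hB : ∀ u ∈ Bd U, lpR U c g u = g u := fun u hu => by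
    rw [lpR_mem hu.1, hb u hu]
    ring
  refine ⟨fun v hv => ?_, fun v hv => ?_, fun u hu v hv huv => ?_⟩
  · rw [lpR_not fun h' => hv (hU h'), hg.off v hv]
  · by_cases h' : v ∈ U
    · rw [lpR_mem h']
      obtain ⟨m, hm⟩ := hg.par v hv
      exact ⟨c - m - par v, by linarith⟩
    · rw [lpR_not h']
      exact hg.par v hv
  · by_cases h1 : u ∈ U
    · by_cases h2 : v ∈ U
      · rw [lpR_mem h1, lpR_mem h2, ← hg.step u hu v hv huv, abs_sub_comm (g u)]
        congr 1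
        ring
      · rw [hB u ⟨h1, v, huv, h2⟩, lpR_not h2]
        exact hg.step u hu v hv huv
    · by_cases h2 : v ∈ U
      · rw [hB v ⟨h2, u, adj_symm huv, h1⟩, lpR_not h1]
        exact hg.step u hu v hv huv
      · rw [lpR_not h1, lpR_not h2]
        exact hg.step u hu v hv huv

/-- sums over the fibre are invariant -/
lemma lpR_sum {U : Set V} {c : ℤ} (hU : U ⊆ lpU S h0) (hb : ∀ g ∈ lpF S h0, ∀ u ∈ Bd U, g u = c)
    (F : (V → ℤ) → ℝ) : ∑ g ∈ lpF S h0, F (lpR U c g) = ∑ g ∈ lpF S h0, F g := by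
  have hm : ∀ g ∈ lpF S h0, lpR U c g ∈ lpF S h0 := by
    intro g hg
    refine lpF_mod hg (lpR_hom (mem_Om.1 (mem_lpF.1 hg).1).1 (hU.trans lpU_sub) (hb g hg)) hU ?_
    rintro v (hv | hv)
    · exact lpR_not hv
    · rw [lpR_mem hv.1, hb g hg v hv]
      ring
  exact Finset.sum_nbij' (fun g => lpR U c g) (fun g => lpR U c g) hm hm
    (fun g _ => lpR_R U c g) (fun g _ => lpR_R U c g) (fun g _ => rfl)

lemma lp_one (hc : Cnn (S : Set V)ᶜ) (h0m : h0 ∈ Om S) {x : V} (hx : x ∈ S) :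
    |∑ g ∈ lpF S h0, (g x : ℝ)| ≤ 2 * (lpF S h0).card := by
  by_cases hxC : x ∈ lpC S h0
  · refine (Finset.abs_sum_le_sum_abs _ _).trans ?_
    rw [mul_comm, ← nsmul_eq_mul]
    refine Finset.sum_le_card_nsmul _ _ _ fun g hg => ?_
    have h1 := lpC_le (h := g) ((mem_lpF.1 hg).2.1 ▸ hxC)
    have h2 : |(g x : ℝ)| ≤ 1 := by exact_mod_cast h1
    linarith
  · obtain ⟨c, hc1, -, hc2⟩ := lp_val (h0 := h0) hc x h0m
    have h1 := lpR_sum (comp_sub _ _) hc2 (fun g => (g x : ℝ))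
    have h2 : ∀ g ∈ lpF S h0, ((lpR (comp (lpU S h0) x) c g x : ℤ) : ℝ) = 2 * c - g x := fun g _ => by
      rw [lpR_mem (mem_comp_self (U := lpU S h0) ⟨hx, hxC⟩)]
      push_cast
      ring
    rw [Finset.sum_congr rfl h2, Finset.sum_sub_distrib, Finset.sum_const, nsmul_eq_mul] at h1
    have h3 : ∑ g ∈ lpF S h0, (g x : ℝ) = (lpF S h0).card * c := by linarith
    rw [h3, abs_mul, mul_comm]
    have h4 : |(c : ℝ)| ≤ 2 := by exact_mod_cast hc1
    rw [Nat.abs_cast]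
    exact mul_le_mul_of_nonneg_right h4 (Nat.cast_nonneg _)

/-- points in different components, or one of them in the cluster -/
lemma lp_diff (hc : Cnn (S : Set V)ᶜ) (h0m : h0 ∈ Om S) {x y : V} (hx : x ∈ S)
    (hy : y ∈ lpU S h0) (hxy : x ∉ comp (lpU S h0) y) :
    ∑ g ∈ lpF S h0, (g x : ℝ) * g y ≤ 4 * (lpF S h0).card := by
  obtain ⟨c, hc1, -, hc2⟩ := lp_val (h0 := h0) hc y h0m
  have h1 := lpR_sum (comp_sub _ _) hc2 (fun g => (g x : ℝ) * g y)
  have h2 : ∀ g ∈ lpF S h0, ((lpR (comp (lpU S h0) y) c g x : ℤ) : ℝ) *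
      ((lpR (comp (lpU S h0) y) c g y : ℤ) : ℝ) = 2 * c * g x - g x * g y := fun g _ => by
    rw [lpR_mem (mem_comp_self hy), lpR_not hxy]
    push_cast
    ring
  rw [Finset.sum_congr rfl h2, Finset.sum_sub_distrib, ← Finset.mul_sum] at h1
  have h3 : ∑ g ∈ lpF S h0, (g x : ℝ) * g y = c * ∑ g ∈ lpF S h0, (g x : ℝ) := by linarith
  rw [h3]
  refine (le_abs_self _).trans ?_
  rw [abs_mul]
  have h4 : |(c : ℝ)| ≤ 2 := by exact_mod_cast hc1
  have h5 := lp_one hc h0m hx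
  calc |(c : ℝ)| * |∑ g ∈ lpF S h0, (g x : ℝ)| ≤ 2 * (2 * (lpF S h0).card) :=
        mul_le_mul h4 h5 (abs_nonneg _) (by norm_num)
    _ = 4 * (lpF S h0).card := by ring

/-- points in one component -/
lemma lp_same (hS : BdryPar S 0) (hc : Cnn (S : Set V)ᶜ) (h0m : h0 ∈ Om S) {x y : V}
    (hx : x ∈ comp (lpU S h0) y) (hy : y ∈ lpU S h0) :
    ∑ g ∈ lpF S h0, (g x : ℝ) * g y ≤ (4 + MD.cv S x y) * (lpF S h0).card := by
  classical
  set U : Set V := comp (lpU S h0) y with hUdef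
  have hyU : y ∈ U := mem_comp_self hy
  have hUS : U ⊆ (S : Set V) := (comp_sub _ _).trans lpU_sub
  obtain ⟨c, hc1, hce, hc2⟩ := lp_val (h0 := h0) hc y h0m
  rw [← hUdef] at hc2
  set W : Finset V := S.filter (fun v => v ∈ U) with hW
  have hWU : ∀ v, v ∈ W ↔ v ∈ U := fun v => by
    rw [hW, Finset.mem_filter]
    exact ⟨fun h => h.2, fun h => ⟨hUS h, h⟩⟩
  have hbW : ∀ v, v ∈ bdry W ↔ v ∈ Bd U := fun v => by
    rw [mem_bdry, mem_Bd, hWU]
    refine and_congr_right fun _ => ⟨?_, ?_⟩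
    · rintro ⟨u, h1, h2⟩
      exact ⟨u, adj_symm h1, fun h' => h2 ((hWU u).2 h')⟩
    · rintro ⟨u, h1, h2⟩
      exact ⟨u, adj_symm h1, fun h' => h2 ((hWU u).1 h')⟩
  have hpW : BdryPar W 0 := fun v hv => by
    have := lp_bd_even h0m ((hbW v).1 hv)
    simpa using this
  have hne : (lpF S h0).Nonempty := ⟨h0, mem_lpF.2 ⟨h0m, rfl, fun _ _ => rfl⟩⟩
  have h1 : ∀ g ∈ lpF S h0, lpIn U c g ∈ Om W := by
    intro g hg
    have hg' := (mem_Om.1 (mem_lpF.1 hg).1).1
    refine mem_Om.2 ⟨⟨fun v hv => lpIn_not fun h' => hv ((hWU v).2 h'), fun v hv => ?_,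
      fun u hu v hv huv => ?_⟩, fun v hv => ?_⟩
    · have hv' := (hWU v).1 hv
      rw [lpIn_mem hv']
      have h2 := (hg'.par v (hUS hv')).sub hce
      have h3 : g v - par v - 0 - c = g v - c - par v - 0 := by ring
      rwa [h3] at h2
    · rw [lpIn_mem ((hWU u).1 hu), lpIn_mem ((hWU v).1 hv),
        ← hg'.step u (hUS ((hWU u).1 hu)) v (hUS ((hWU v).1 hv)) huv]
      congr 1
      ring
    · have hv' := (hbW v).1 hv
      rw [lpIn_mem hv'.1, hc2 g hg v hv', sub_self]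
  have h2 : ∀ g ∈ lpF S h0, ∀ b ∈ Om W, lpGl U c b g ∈ lpF S h0 := by
    intro g hg b hb
    have hg' := (mem_Om.1 (mem_lpF.1 hg).1).1
    obtain ⟨hb1, hb2⟩ := mem_Om.1 hb
    have hB : ∀ u ∈ Bd U, lpGl U c b g u = g u := fun u hu => by
      rw [lpGl_mem hu.1, hb2 u ((hbW u).2 hu), zero_add, hc2 g hg u hu]
    refine lpF_mod (U := U) hg ⟨fun v hv => ?_, fun v hv => ?_, fun u hu v hv huv => ?_⟩
      (comp_sub _ _) ?_
    · rw [lpGl_not fun h' => hv (hUS h'), hg'.off v hv]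
    · by_cases h' : v ∈ U
      · rw [lpGl_mem h']
        have h3 := (hb1.par v ((hWU v).2 h')).add hce
        have h4 : b v - par v - 0 + c = b v + c - par v - 0 := by ring
        rwa [h4] at h3
      · rw [lpGl_not h']
        exact hg'.par v hv
    · by_cases k1 : u ∈ U
      · by_cases k2 : v ∈ U
        · rw [lpGl_mem k1, lpGl_mem k2,
            ← hb1.step u ((hWU u).2 k1) v ((hWU v).2 k2) huv]
          congr 1
          ring
        · rw [hB u ⟨k1, v, huv, k2⟩, lpGl_not k2]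
          exact hg'.step u hu v hv huv
      · by_cases k2 : v ∈ U
        · rw [hB v ⟨k2, u, adj_symm huv, k1⟩, lpGl_not k1]
          exact hg'.step u hu v hv huv
        · rw [lpGl_not k1, lpGl_not k2]
          exact hg'.step u hu v hv huv
    · rintro v (hv | hv)
      · exact lpGl_not hv
      · exact hB v hv
  have h3 := avg_lpIn h1 h2 (fun b hb v hv => (mem_Om.1 hb).1.off v fun h' => hv ((hWU v).1 h')) hne
    (fun g => (g x : ℝ) * g y)
  have h4 : avg (Om W) (fun g => (g x : ℝ) * g y) ≤ MD.cv S x y :=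
    cov_mono W S (Finset.filter_subset _ _) hpW hS x y ((hWU x).2 hx) ((hWU y).2 hyU)
  rw [← h3] at h4
  -- expand
  have h5 := lpR_sum (comp_sub _ _) hc2 (fun g => (g x : ℝ))
  have h6 := lpR_sum (comp_sub _ _) hc2 (fun g => (g y : ℝ))
  have e5 : ∀ g ∈ lpF S h0, ((lpR U c g x : ℤ) : ℝ) = 2 * c - g x := fun g _ => by
    rw [lpR_mem hx]
    push_cast
    ring
  have e6 : ∀ g ∈ lpF S h0, ((lpR U c g y : ℤ) : ℝ) = 2 * c - g y := fun g _ => by
    rw [lpR_mem hyU]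
    push_cast
    ring
  rw [Finset.sum_congr rfl e5, Finset.sum_sub_distrib, Finset.sum_const, nsmul_eq_mul] at h5
  rw [Finset.sum_congr rfl e6, Finset.sum_sub_distrib, Finset.sum_const, nsmul_eq_mul] at h6
  have hN : (0 : ℝ) < (lpF S h0).card := by exact_mod_cast hne.card_pos
  unfold avg at h4
  rw [div_le_iff₀ hN] at h4
  have e7 : ∀ g ∈ lpF S h0, ((lpIn U c g x : ℤ) : ℝ) * ((lpIn U c g y : ℤ) : ℝ) =
      g x * g y - c * g x - c * g y + c ^ 2 := fun g _ => by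
    rw [lpIn_mem hx, lpIn_mem hyU]
    push_cast
    ring
  rw [Finset.sum_congr rfl e7, Finset.sum_add_distrib, Finset.sum_sub_distrib,
    Finset.sum_sub_distrib, ← Finset.mul_sum, ← Finset.mul_sum, Finset.sum_const, nsmul_eq_mul] at h4
  have h8 : (c : ℝ) ^ 2 ≤ 4 := by
    have h9 : |(c : ℝ)| ≤ 2 := by exact_mod_cast hc1
    rw [abs_le] at h9
    nlinarith
  have h10 : ∑ g ∈ lpF S h0, (g x : ℝ) = (lpF S h0).card * c := by linarith
  have h11 : ∑ g ∈ lpF S h0, (g y : ℝ) = (lpF S h0).card * c := by linarith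
  rw [h10, h11] at h4
  nlinarith

open Classical in
/-- the bound on one fibre -/
lemma lp_fibre (hS : BdryPar S 0) (hc : Cnn (S : Set V)ᶜ) (h0m : h0 ∈ Om S) {x y : V}
    (hx : x ∈ S) (hy : y ∈ S) : ∑ g ∈ lpF S h0, (g x : ℝ) * g y ≤
      ∑ g ∈ lpF S h0, (4 + (if Con (lpU S g) x y then (1 : ℝ) else 0) * MD.cv S x y) := by
  have key : ∑ g ∈ lpF S h0, (4 + (if Con (lpU S g) x y then (1 : ℝ) else 0) * MD.cv S x y) =
      (lpF S h0).card * (4 + (if Con (lpU S h0) x y then (1 : ℝ) else 0) * MD.cv S x y) := by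
    rw [← nsmul_eq_mul, ← Finset.sum_const]
    exact Finset.sum_congr rfl fun g hg => by rw [lpU_eq hg]
  rw [key]
  by_cases hcon : Con (lpU S h0) x y
  · rw [if_pos hcon, one_mul]
    have h1 := lp_same hS hc h0m hcon.symm' hcon.right
    linarith
  · rw [if_neg hcon, zero_mul, add_zero]
    by_cases hyC : y ∈ lpC S h0
    · by_cases hxC : x ∈ lpC S h0
      · rw [← nsmul_eq_mul]
        refine Finset.sum_le_card_nsmul _ _ _ fun g hg => ?_
        have e := (mem_lpF.1 hg).2.1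
        have h1 := lpC_le (h := g) (e ▸ hxC)
        have h2 := lpC_le (h := g) (e ▸ hyC)
        have h3 : |(g x : ℝ)| ≤ 1 := by exact_mod_cast h1
        have h4 : |(g y : ℝ)| ≤ 1 := by exact_mod_cast h2
        refine (le_abs_self _).trans ?_
        rw [abs_mul]
        have h5 := abs_nonneg (g x : ℝ)
        have h6 := abs_nonneg (g y : ℝ)
        nlinarith
      · have h1 := lp_diff hc h0m hy (y := x) ⟨hx, hxC⟩ fun h' => (comp_sub _ _ h').2 hyC
        have h2 : ∑ g ∈ lpF S h0, (g x : ℝ) * g y = ∑ g ∈ lpF S h0, (g y : ℝ) * g x :=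
          Finset.sum_congr rfl fun g _ => mul_comm _ _
        rw [h2]
        linarith
    · have h1 := lp_diff hc h0m hx (y := y) ⟨hy, hyC⟩ fun h' => hcon (Con.symm' h')
      linarith

end fibre

/-- (J): the two point lemma -/
theorem lp_J {S : Finset V} (hS : BdryPar S 0) (hc : Cnn (S : Set V)ᶜ) {x y : V}
    (hx : x ∈ S) (hy : y ∈ S) :
    MD.cv S x y ≤ 4 + pr (Om S) (fun h => Con (lpU S h) x y) * MD.cv S x y := by
  classical
  have hne : (Om S).Nonempty := Om_nonempty hS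
  have hN : (0 : ℝ) < (Om S).card := by exact_mod_cast hne.card_pos
  have h1 : ∑ h ∈ Om S, (h x : ℝ) * h y ≤
      ∑ h ∈ Om S, (4 + (if Con (lpU S h) x y then (1 : ℝ) else 0) * MD.cv S x y) := by
    rw [← Finset.sum_fiberwise_of_maps_to (s := Om S) (t := (Om S).image (lpK S)) (g := lpK S)
      (fun g hg => Finset.mem_image_of_mem _ hg),
      ← Finset.sum_fiberwise_of_maps_to (s := Om S) (t := (Om S).image (lpK S)) (g := lpK S)
      (fun g hg => Finset.mem_image_of_mem _ hg)]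
    refine Finset.sum_le_sum fun k hk => ?_
    obtain ⟨h0, h0m, rfl⟩ := Finset.mem_image.1 hk
    have h2 := lp_fibre hS hc h0m hx hy
    unfold lpF at h2
    convert h2
  have h3 : MD.cv S x y * (Om S).card = ∑ h ∈ Om S, (h x : ℝ) * h y := by
    unfold MD.cv avg
    rw [div_mul_cancel₀ _ hN.ne']
  have h4 : pr (Om S) (fun h => Con (lpU S h) x y) * (Om S).card =
      ∑ h ∈ Om S, (if Con (lpU S h) x y then (1 : ℝ) else 0) := by
    unfold pr avg
    rw [div_mul_cancel₀ _ hN.ne']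
  rw [Finset.sum_add_distrib, Finset.sum_const, nsmul_eq_mul, ← Finset.sum_mul, ← h4, ← h3] at h1
  have h5 : (MD.cv S x y - (4 + pr (Om S) (fun h => Con (lpU S h) x y) * MD.cv S x y)) *
      (Om S).card ≤ 0 := by linarith
  by_contra h6
  push Not at h6
  have h7 := mul_pos (sub_pos.2 h6) hN
  linarith

/-- a covariance of at least `12` gives a connection with probability at least `2/3` -/
theorem lp_two_thirds {S : Finset V} (hS : BdryPar S 0) (hc : Cnn (S : Set V)ᶜ) {x y : V}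
    (hxy : 12 ≤ MD.cv S x y) : 2 / 3 ≤ pr (Om S) (fun h => Con (lpU S h) x y) := by
  have hmem : x ∈ S ∧ y ∈ S := by
    by_contra h
    have h1 : MD.cv S x y = 0 := by
      unfold MD.cv avg
      rw [Finset.sum_eq_zero, zero_div]
      intro g hg
      have hoff := (mem_Om.1 hg).1.off
      by_cases hx : x ∈ S
      · rw [hoff y fun hy => h ⟨hx, hy⟩]
        simp
      · rw [hoff x hx]
        simp
    linarith
  have h1 := lp_J hS hc hmem.1 hmem.2
  have h2 := pr_nonneg (Om S) (fun h => Con (lpU S h) x y)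
  by_contra h3
  push Not at h3
  nlinarith

end DV
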