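import Pool.Agent.Helper97.DV.Gc
import Pool.Agent.Helper63.RP4.E3

/-!
# Project DV (MP_973bc8_pr), block LOOP: product decomposition of a finite family of functions

If the values on `U` (shifted by a constant `c`) and the values off `U` can be chosen independently, the
average of a function of the values on `U` is an average over the inner family.
-/

open Finset RP4

namespace DV

open Classical in
/-- the shifted values on `U` -/
noncomputable def lpIn (U : Set V) (c : ℤ) (g : V → ℤ) : V → ℤ := fun v => if v ∈ U then g v - c else 0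

open Classical in
/-- the values of `b`, shifted by `c`, on `U`, the values of `g` off `U` -/
noncomputable def lpGl (U : Set V) (c : ℤ) (b g : V → ℤ) : V → ℤ :=
  fun v => if v ∈ U then b v + c else g v

lemma lpIn_mem {U : Set V} {c : ℤ} {g : V → ℤ} {v : V} (h : v ∈ U) : lpIn U c g v = g v - c :=
  if_pos h

lemma lpIn_not {U : Set V} {c : ℤ} {g : V → ℤ} {v : V} (h : v ∉ U) : lpIn U c g v = 0 := if_neg h

lemma lpGl_mem {U : Set V} {c : ℤ} {b g : V → ℤ} {v : V} (h : v ∈ U) : lpGl U c b g v = b v + c :=
  if_pos h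

lemma lpGl_not {U : Set V} {c : ℤ} {b g : V → ℤ} {v : V} (h : v ∉ U) : lpGl U c b g v = g v :=
  if_neg h

/-- product decomposition -/
theorem avg_lpIn {A B : Finset (V → ℤ)} {U : Set V} {c : ℤ} (h1 : ∀ g ∈ A, lpIn U c g ∈ B)
    (h2 : ∀ g ∈ A, ∀ b ∈ B, lpGl U c b g ∈ A) (hoff : ∀ b ∈ B, ∀ v, v ∉ U → b v = 0)
    (hA : A.Nonempty) (F : (V → ℤ) → ℝ) : avg A (fun g => F (lpIn U c g)) = avg B F := by
  classical
  set O := A.image (fun g v => if v ∈ U then 0 else g v) with hO
  have hOne : O.Nonempty := hA.image _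
  have key : ∀ G : (V → ℤ) → ℝ, ∑ g ∈ A, G (lpIn U c g) = O.card * ∑ u ∈ B, G u := by
    intro G
    have h3 : ∑ g ∈ A, G (lpIn U c g) = ∑ q ∈ B ×ˢ O, G q.1 := by
      refine Finset.sum_nbij' (fun g => (lpIn U c g, fun v => if v ∈ U then 0 else g v))
        (fun q => lpGl U c q.1 q.2) ?_ ?_ ?_ ?_ ?_
      · intro g hg
        exact mem_product.2 ⟨h1 g hg, mem_image_of_mem _ hg⟩
      · intro q hq
        obtain ⟨h4, h5⟩ := mem_product.1 hq
        obtain ⟨g, hg, hg'⟩ := mem_image.1 h5
        have h6 : lpGl U c q.1 q.2 = lpGl U c q.1 g := by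
          funext v
          by_cases hv : v ∈ U
          · rw [lpGl_mem hv, lpGl_mem hv]
          · rw [lpGl_not hv, lpGl_not hv, ← hg']
            exact if_neg hv
        rw [h6]
        exact h2 g hg _ h4
      · intro g hg
        funext v
        show lpGl U c (lpIn U c g) (fun v => if v ∈ U then 0 else g v) v = g v
        by_cases hv : v ∈ U
        · rw [lpGl_mem hv, lpIn_mem hv]
          ring
        · rw [lpGl_not hv]
          exact if_neg hv
      · intro q hq
        obtain ⟨h4, h5⟩ := mem_product.1 hq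
        obtain ⟨g, hg, hg'⟩ := mem_image.1 h5
        ext v
        · by_cases hv : v ∈ U
          · show lpIn U c (lpGl U c q.1 q.2) v = q.1 v
            rw [lpIn_mem hv, lpGl_mem hv]
            ring
          · show lpIn U c (lpGl U c q.1 q.2) v = q.1 v
            rw [lpIn_not hv, hoff _ h4 v hv]
        · by_cases hv : v ∈ U
          · show (if v ∈ U then 0 else lpGl U c q.1 q.2 v) = q.2 v
            rw [if_pos hv, ← hg']
            exact (if_pos hv).symm
          · show (if v ∈ U then 0 else lpGl U c q.1 q.2 v) = q.2 v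
            rw [if_neg hv, lpGl_not hv]
      · intro g _
        rfl
    rw [h3, Finset.sum_product, Finset.mul_sum]
    refine Finset.sum_congr rfl fun u _ => ?_
    simp only [sum_const, nsmul_eq_mul]
  have hc := key (fun _ => 1)
  simp only [sum_const, nsmul_eq_mul, mul_one] at hc
  unfold avg
  have hOc : (O.card : ℝ) ≠ 0 := by
    exact_mod_cast hOne.card_pos.ne'
  rw [key F, hc, mul_div_mul_left _ _ hOc]

/-- the same for probabilities -/
theorem pr_lpIn {A B : Finset (V → ℤ)} {U : Set V} {c : ℤ} (h1 : ∀ g ∈ A, lpIn U c g ∈ B)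
    (h2 : ∀ g ∈ A, ∀ b ∈ B, lpGl U c b g ∈ A) (hoff : ∀ b ∈ B, ∀ v, v ∉ U → b v = 0)
    (hA : A.Nonempty) (E : (V → ℤ) → Prop) : pr A (fun g => E (lpIn U c g)) = pr B E := by
  classical
  exact avg_lpIn h1 h2 hoff hA (fun g => if E g then 1 else 0)

end DV
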