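import Pool.Agent.Helper43.DV.Lp

/-!
# Project DV (MP_973bc8_pr), block LOOP: the chain around the annulus and the statement LP

Four chains of diamonds, one along each side of the annulus; on the event that all links are joined, no
path of `|h| ≤ 1` crosses the annulus.
-/

open Finset RP4

namespace DV

/-- correlation inequality for finitely many increasing events -/
lemma pr_all_inc {D : Finset V} {p : ℤ} {B : Set V} {T : Set (V → ℤ)} {A : Finset (V → ℤ)}
    (hA : Fam D p B T A) (hT : Lat D p T) (hne : A.Nonempty) {ι : Type*} (s : Finset ι)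
    (E : ι → (V → ℤ) → Prop) (hE : ∀ i ∈ s, Inc (E i)) {c : ℝ} (hc : 0 ≤ c)
    (h : ∀ i ∈ s, c ≤ pr A (E i)) :
    c ^ s.card ≤ pr A (fun g => ∀ i ∈ s, E i g) ∧ Inc (fun g => ∀ i ∈ s, E i g) := by
  classical
  induction s using Finset.induction_on with
  | empty =>
    constructor
    · rw [Finset.card_empty, pow_zero, pr_eq]
      have h1 : A.filter (fun g => ∀ i ∈ (∅ : Finset ι), E i g) = A := by
        ext g
        simp
      rw [h1, div_self]
      exact_mod_cast hne.card_pos.ne'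
    · exact ⟨fun g => by simp, fun g g' _ _ _ => by simp⟩
  | insert a s ha ih =>
    obtain ⟨h1, h2⟩ := ih (fun i hi => hE i (mem_insert_of_mem hi))
      (fun i hi => h i (mem_insert_of_mem hi))
    have hEa := hE a (mem_insert_self a s)
    have e : (fun g => ∀ i ∈ insert a s, E i g) = fun g => E a g ∧ ∀ i ∈ s, E i g := by
      funext g
      simp only [Finset.mem_insert, forall_eq_or_imp]
    rw [e, Finset.card_insert_of_notMem ha, pow_succ, mul_comm]
    refine ⟨?_, hEa.and h2⟩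
    refine le_trans ?_ (pr_inc_inc hA hT hEa h2)
    exact mul_le_mul (h a (mem_insert_self a s)) h1 (pow_nonneg hc _) (pr_nonneg _ _)

/-- cutting a path to a strip -/
lemma cut_strip {Q : Set V} {φ : V → ℤ} (hφ : ∀ a b, Adj a b → |φ a - φ b| ≤ 1) {u v : V}
    (h : Con Q u v) {m : ℤ} (hm : 0 ≤ m) (hu : φ u ≤ -m) (hv : m ≤ φ v) :
    ∃ q q', Con (Q ∩ {w | -m ≤ φ w ∧ φ w ≤ m}) q q' ∧ φ q = -m ∧ φ q' = m := by
  obtain ⟨q, h1, h2⟩ := Jn.level hφ h.symm' (n := -m) (by omega) hu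
  have hφ' : ∀ a b, Adj a b → |(-φ a) - (-φ b)| ≤ 1 := fun a b hab => by
    have := hφ a b hab
    rw [abs_sub_comm] at this
    have e : -φ a - -φ b = φ b - φ a := by ring
    rwa [e]
  obtain ⟨q', h3, h4⟩ := Jn.level (φ := fun v => -φ v) hφ' (Con.symm' h1) (n := -m) (by
    show -m ≤ -φ q
    omega) (by
    show -φ v ≤ -m
    omega)
  refine ⟨q, q', h3.mono (fun _ _ h => h) ?_, h2, ?_⟩
  · rintro w ⟨⟨hw1, hw2⟩, hw3⟩
    have k2 : -m ≤ φ w := hw2
    have k3 : -m ≤ -φ w := hw3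
    exact ⟨hw1, k2, by omega⟩
  · have h5 : -φ q' = -m := h4
    omega

/-- a chain of links gives a crossing of a strip -/
lemma chain_strip {h : V → ℤ} {pos : ℕ → V} {N R : ℕ} {φ : V → ℤ}
    (hφ : ∀ a b, Adj a b → |φ a - φ b| ≤ 1)
    (hJ : ∀ j < N, Con (lpU (Sd R (pos j)) h) (pos j) (pos (j + 1))) (hN : 0 < N) {m : ℤ}
    (hm : 0 ≤ m) (h0 : φ (pos 0) ≤ -m) (h1 : m ≤ φ (pos N)) :
    ∃ q q', Con ({w | ∃ j < N, w ∈ lpU (Sd R (pos j)) h} ∩ {w | -m ≤ φ w ∧ φ w ≤ m}) q q' ∧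
      φ q = -m ∧ φ q' = m := by
  refine cut_strip hφ ?_ hm h0 h1
  have key : ∀ k ≤ N, Con {w | ∃ j < N, w ∈ lpU (Sd R (pos j)) h} (pos 0) (pos k) := by
    intro k
    induction k with
    | zero => intro _; exact Jn.refl ⟨0, hN, (hJ 0 hN).left⟩
    | succ k ih =>
      intro hk
      exact (ih (by omega)).trans ((hJ k (by omega)).mono (fun _ _ h => h) fun w hw =>
        ⟨k, by omega, hw⟩)
  exact key N le_rfl

/-- a path of `|h| ≤ 1` that leaves the diamond does not meet the joined part -/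
lemma lpU_exit {S : Finset V} {h : V → ℤ} {u w : V} (hw : w ∈ lpU S h)
    (hc : Con {v | |h v| ≤ 1} w u) (hu : u ∉ S) : False := by
  obtain ⟨a, b, h1, h2, h3, h4, -, h6⟩ := hc.exit (A := (S : Set V)) hw.1 hu
  refine hw.2 ⟨a, mem_bdry.2 ⟨h4, b, adj_symm h2, h6⟩, ?_⟩
  exact (Con.symm' h1).mono (fun _ _ h => h) fun v hv => ⟨hv.2, hv.1⟩

/-- sign -/
def sgB (β : Bool) : ℤ := if β then 1 else -1

lemma sgB_cases (β : Bool) : sgB β = 1 ∨ sgB β = -1 := by
  cases β
  · right; rfl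
  · left; rfl

/-- coordinate along the chain -/
def cpx (a X : ℤ) (j : ℕ) : ℤ := X + j * a

/-- coordinate across the chain -/
def cpy (b Y : ℤ) (j : ℕ) : ℤ := Y + if Even j then 0 else b

/-- the points of the four chains -/
def cps (x : V) (a b X Y : ℤ) (ν β : Bool) (j : ℕ) : V :=
  if ν then (x.1 + sgB β * cpy b Y j, x.2 + cpx a X j)
  else (x.1 + cpx a X j, x.2 + sgB β * cpy b Y j)

/-- the steps of the four chains -/
def cst (a b : ℤ) (ν β : Bool) (j : ℕ) : V :=
  if ν then (sgB β * (if Even j then b else -b), a) else (a, sgB β * (if Even j then b else -b))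

lemma cpx_succ (a X : ℤ) (j : ℕ) : cpx a X (j + 1) = cpx a X j + a := by
  unfold cpx
  push_cast
  ring

lemma cpy_succ (b Y : ℤ) (j : ℕ) : cpy b Y (j + 1) = cpy b Y j + if Even j then b else -b := by
  unfold cpy
  by_cases h : Even j
  · have h' : ¬ Even (j + 1) := by
      rw [Nat.even_add_one]
      exact not_not.2 h
    rw [if_pos h, if_neg h', if_pos h]
    ring
  · have h' : Even (j + 1) := by
      rw [Nat.even_add_one]
      exact h
    rw [if_neg h, if_pos h', if_neg h]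
    ring

lemma cpy_bd {b Y : ℤ} (hb : 0 ≤ b) (j : ℕ) : Y ≤ cpy b Y j ∧ cpy b Y j ≤ Y + b := by
  unfold cpy
  split_ifs <;> constructor <;> linarith

lemma cps_succ (x : V) (a b X Y : ℤ) (ν β : Bool) (j : ℕ) :
    cps x a b X Y ν β (j + 1) = cps x a b X Y ν β j + cst a b ν β j := by
  unfold cps cst
  rw [cpx_succ, cpy_succ]
  cases ν
  · simp only [Bool.false_eq_true, if_false]
    ext
    · simp only [Prod.fst_add]
      ring
    · simp only [Prod.snd_add]
      ring
  · simp only [if_true]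
    ext
    · simp only [Prod.fst_add]
      ring
    · simp only [Prod.snd_add]
      ring

lemma cp_par {a b X Y : ℤ} (hab : Even (a + b)) (j : ℕ) :
    Even (cpx a X j + cpy b Y j - (X + Y)) := by
  unfold cpx cpy
  rcases Nat.even_or_odd j with h | h
  · rw [if_pos h]
    have h1 : Even ((j : ℤ) * a) := (Int.even_mul.2 (Or.inl (by exact_mod_cast h)))
    have e : X + j * a + (Y + 0) - (X + Y) = j * a := by ring
    rwa [e]
  · rw [if_neg (Nat.not_even_iff_odd.2 h)]
    obtain ⟨k, hk⟩ := h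
    have e : X + (j : ℤ) * a + (Y + b) - (X + Y) = 2 * (k * a) + (a + b) := by
      rw [hk]
      push_cast
      ring
    rw [e]
    exact (even_two_mul _).add hab

lemma cps_par {x : V} {a b X Y p : ℤ} (hab : Even (a + b)) (hX : Even (par x + X + Y + p))
    (ν β : Bool) (j : ℕ) : Even (par (cps x a b X Y ν β j) + p) := by
  have h1 := cp_par (X := X) (Y := Y) hab j
  unfold cps par at *
  rcases sgB_cases β with h | h <;> rw [h] <;> cases ν <;>
    simp only [Bool.false_eq_true, if_false, if_true] <;>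
    rw [Int.even_iff] at h1 hX ⊢ <;> omega

section cvsym

variable {R : ℕ}

lemma img_refl1_diam (R : ℕ) : img refl1 (diam R) = diam R := by
  ext v
  rw [T1_mem_img, mem_diam, mem_diam]
  show |-v.1| + |v.2| ≤ R ↔ _
  rw [abs_neg]

lemma img_swapV_diam (R : ℕ) : img swapV (diam R) = diam R := by
  ext v
  rw [T1_mem_img, mem_diam, mem_diam]
  show |v.2| + |v.1| ≤ R ↔ _
  rw [add_comm]

lemma cv_neg1 (w : V) : MD.cv (diam R) 0 (-w.1, w.2) = MD.cv (diam R) 0 w := by
  have h1 := avg_Om_img refl1_lsym (fun v => by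
    show Even (-v.1 + v.2 - (v.1 + v.2))
    exact ⟨-v.1, by ring⟩) (diam R) (fun h => (h 0 : ℝ) * h w)
  rw [img_refl1_diam] at h1
  have e0 : refl1 0 = 0 := by
    show ((-0 : ℤ), (0 : ℤ)) = 0
    simp
  simp only [e0] at h1
  exact h1

lemma cv_swap0 (w : V) : MD.cv (diam R) 0 (w.2, w.1) = MD.cv (diam R) 0 w := by
  have h1 := avg_Om_img swapV_lsym (fun v => by
    show Even (v.2 + v.1 - (v.1 + v.2))
    exact ⟨0, by ring⟩) (diam R) (fun h => (h 0 : ℝ) * h w)
  rw [img_swapV_diam] at h1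
  exact h1

lemma cv_neg2 (w : V) : MD.cv (diam R) 0 (w.1, -w.2) = MD.cv (diam R) 0 w := by
  rw [← cv_swap0 (w.1, -w.2), ← cv_swap0 w]
  exact cv_neg1 (w.2, w.1)

lemma cv_sg1 {σ : ℤ} (hσ : σ = 1 ∨ σ = -1) (a b : ℤ) :
    MD.cv (diam R) 0 (σ * a, b) = MD.cv (diam R) 0 (a, b) := by
  rcases hσ with rfl | rfl
  · rw [one_mul]
  · rw [neg_one_mul]
    exact cv_neg1 (a, b)

lemma cv_sg2 {σ : ℤ} (hσ : σ = 1 ∨ σ = -1) (a b : ℤ) :
    MD.cv (diam R) 0 (a, σ * b) = MD.cv (diam R) 0 (a, b) := by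
  rcases hσ with rfl | rfl
  · rw [one_mul]
  · rw [neg_one_mul]
    exact cv_neg2 (a, b)

lemma cv_abs (v : V) : MD.cv (diam R) 0 (|v.1|, |v.2|) = MD.cv (diam R) 0 v := by
  have h1 : ∀ t : ℤ, |t| = 1 * t ∨ |t| = (-1) * t := fun t => by
    rcases abs_choice t with h | h
    · left; rw [h, one_mul]
    · right; rw [h]; ring
  rcases h1 v.1 with h | h <;> rw [h, cv_sg1 (by norm_num)] <;>
  rcases h1 v.2 with h' | h' <;> rw [h', cv_sg2 (by norm_num)]

/-- the normal form of the vector -/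
lemma cv_norm {v : V} (hv : Even (par v)) {A : ℝ} (h : A ≤ MD.cv (diam R) 0 v) :
    ∃ a b : ℤ, 0 ≤ b ∧ b ≤ a ∧ a = max |v.1| |v.2| ∧ Even (a + b) ∧
      A ≤ MD.cv (diam R) 0 (a, b) ∧ A ≤ MD.cv (diam R) 0 (b, a) := by
  have h1 := cv_abs (R := R) v
  have hp : Even (|v.1| + |v.2|) := by
    rw [Int.even_add, even_abs, even_abs, ← Int.even_add]
    exact hv
  rcases le_total |v.1| |v.2| with h2 | h2
  · refine ⟨|v.2|, |v.1|, abs_nonneg _, h2, (max_eq_right h2).symm, by rwa [add_comm], ?_, ?_⟩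
    · rw [cv_swap0 (|v.1|, |v.2|), h1]
      exact h
    · rw [h1]
      exact h
  · refine ⟨|v.1|, |v.2|, abs_nonneg _, h2, (max_eq_left h2).symm, hp, ?_, ?_⟩
    · rw [h1]
      exact h
    · rw [cv_swap0 (|v.1|, |v.2|), h1]
      exact h

lemma cv_cst {a b : ℤ} {A : ℝ} (h1 : A ≤ MD.cv (diam R) 0 (a, b))
    (h2 : A ≤ MD.cv (diam R) 0 (b, a)) (ν β : Bool) (j : ℕ) :
    A ≤ MD.cv (diam R) 0 (cst a b ν β j) := by
  unfold cst
  have hb : (if Even j then b else -b) = 1 * b ∨ (if Even j then b else -b) = (-1) * b := by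
    split_ifs
    · left; ring
    · right; ring
  cases ν
  · simp only [Bool.false_eq_true, if_false]
    rw [cv_sg2 (sgB_cases β)]
    rcases hb with h | h <;> rw [h, cv_sg2 (by norm_num)] <;> exact h1
  · simp only [if_true]
    rw [cv_sg1 (sgB_cases β)]
    rcases hb with h | h <;> rw [h, cv_sg1 (by norm_num)] <;> exact h2

end cvsym

end DV
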