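import Pool.Agent.Helper43.DV.Lc
import Pool.Agent.Helper58.KP.Defs

/-!
# Project DV (MP_973bc8_pr), block LOOP: LP from a pair with covariance at least 12
-/

open Finset RP4

namespace DV

lemma sd_across_f {x w : V} {a b X Y k : ℤ} {R : ℕ} {β : Bool} {j : ℕ} (hY : Y = k + 1 + R)
    (hb : 0 ≤ b) (hb' : b ≤ 2 * k) (hw : w ∈ Sd R (cps x a b X Y false β j)) :
    k + 1 ≤ sgB β * (w.2 - x.2) ∧ sgB β * (w.2 - x.2) ≤ 3 * k + 1 + 2 * R := by
  rw [mem_Sd] at hw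
  have h1 := cpy_bd (Y := Y) hb j
  have h2 : |w.2 - (x.2 + sgB β * cpy b Y j)| ≤ R := by
    refine le_trans ?_ hw
    exact le_add_of_nonneg_left (abs_nonneg _)
  rw [abs_le] at h2
  rcases sgB_cases β with h | h <;> rw [h] at h2 ⊢ <;> omega

lemma sd_across_t {x w : V} {a b X Y k : ℤ} {R : ℕ} {β : Bool} {j : ℕ} (hY : Y = k + 1 + R)
    (hb : 0 ≤ b) (hb' : b ≤ 2 * k) (hw : w ∈ Sd R (cps x a b X Y true β j)) :
    k + 1 ≤ sgB β * (w.1 - x.1) ∧ sgB β * (w.1 - x.1) ≤ 3 * k + 1 + 2 * R := by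
  rw [mem_Sd] at hw
  have h1 := cpy_bd (Y := Y) hb j
  have h2 : |w.1 - (x.1 + sgB β * cpy b Y j)| ≤ R := by
    refine le_trans ?_ hw
    exact le_add_of_nonneg_right (abs_nonneg _)
  rw [abs_le] at h2
  rcases sgB_cases β with h | h <;> rw [h] at h2 ⊢ <;> omega

lemma sd_along_f {x w : V} {a b X Y : ℤ} {R : ℕ} {β : Bool} {j : ℕ}
    (hw : w ∈ Sd R (cps x a b X Y false β j)) : |w.1 - x.1| ≤ |cpx a X j| + R := by
  rw [mem_Sd] at hw
  have h2 : |w.1 - (x.1 + cpx a X j)| ≤ R := by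
    refine le_trans ?_ hw
    exact le_add_of_nonneg_right (abs_nonneg _)
  have h3 := abs_add_le (w.1 - (x.1 + cpx a X j)) (cpx a X j)
  have e : w.1 - (x.1 + cpx a X j) + cpx a X j = w.1 - x.1 := by ring
  rw [e] at h3
  linarith

lemma sd_along_t {x w : V} {a b X Y : ℤ} {R : ℕ} {β : Bool} {j : ℕ}
    (hw : w ∈ Sd R (cps x a b X Y true β j)) : |w.2 - x.2| ≤ |cpx a X j| + R := by
  rw [mem_Sd] at hw
  have h2 : |w.2 - (x.2 + cpx a X j)| ≤ R := by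
    refine le_trans ?_ hw
    exact le_add_of_nonneg_left (abs_nonneg _)
  have h3 := abs_add_le (w.2 - (x.2 + cpx a X j)) (cpx a X j)
  have e : w.2 - (x.2 + cpx a X j) + cpx a X j = w.2 - x.2 := by ring
  rw [e] at h3
  linarith

/-- diamonds of the chains do not meet the inner square -/
lemma sd_out {x w : V} {a b X Y k : ℤ} {R : ℕ} {ν β : Bool} {j : ℕ} (hY : Y = k + 1 + R)
    (hb : 0 ≤ b) (hb' : b ≤ 2 * k) (hw : w ∈ Sd R (cps x a b X Y ν β j)) : w ∉ Sq x k := by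
  rintro ⟨h1, h2⟩
  rw [abs_le] at h1 h2
  cases ν
  · have h3 := sd_across_f hY hb hb' hw
    rcases sgB_cases β with h | h <;> rw [h] at h3 <;> omega
  · have h3 := sd_across_t hY hb hb' hw
    rcases sgB_cases β with h | h <;> rw [h] at h3 <;> omega

/-- diamonds of the chains lie in the outer square -/
lemma sd_in {x w : V} {a b X Y k M : ℤ} {R : ℕ} {ν β : Bool} {j : ℕ} (hY : Y = k + 1 + R)
    (hb : 0 ≤ b) (hb' : b ≤ 2 * k) (h1 : |cpx a X j| + R ≤ M) (h2 : 3 * k + 1 + 2 * R ≤ M)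
    (hw : w ∈ Sd R (cps x a b X Y ν β j)) : w ∈ Sq x M := by
  cases ν
  · have h3 := sd_across_f hY hb hb' hw
    have h4 := sd_along_f hw
    refine ⟨h4.trans h1, ?_⟩
    rw [abs_le]
    rcases sgB_cases β with h | h <;> rw [h] at h3 <;> omega
  · have h3 := sd_across_t hY hb hb' hw
    have h4 := sd_along_t hw
    refine ⟨?_, h4.trans h1⟩
    rw [abs_le]
    rcases sgB_cases β with h | h <;> rw [h] at h3 <;> omega

/-- the joined part of the chains -/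
def lpQ (h : V → ℤ) (R N : ℕ) (x : V) (a b X Y : ℤ) : Set V :=
  {w | ∃ ν β : Bool, ∃ j < N, w ∈ lpU (Sd R (cps x a b X Y ν β j)) h}

lemma lp_frame {h : V → ℤ} {R N : ℕ} {x : V} {a b X Y k m : ℤ} (hY : Y = k + 1 + R)
    (hb : 0 ≤ b) (hb' : b ≤ 2 * k) (hm : m = 3 * k + 1 + 2 * R) (hk : 0 ≤ k) (hN : 0 < N)
    (hX0 : X ≤ -m) (hX1 : m ≤ X + N * a)
    (hJ : ∀ ν β : Bool, ∀ j < N, Con (lpU (Sd R (cps x a b X Y ν β j)) h)
      (cps x a b X Y ν β j) (cps x a b X Y ν β (j + 1))) :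
    Frm Adj (lpQ h R N x a b X Y) x k m := by
  have hφ1 : ∀ a b : V, Adj a b → |(a.1 - x.1) - (b.1 - x.1)| ≤ 1 := fun a b hab =>
    kng_fst (adj_kng hab) x.1
  have hφ2 : ∀ a b : V, Adj a b → |(a.2 - x.2) - (b.2 - x.2)| ≤ 1 := fun a b hab =>
    kng_snd (adj_kng hab) x.2
  have hm0 : 0 ≤ m := by omega
  have e0 : cpx a X 0 = X := by simp [cpx]
  have eN : cpx a X N = X + N * a := rfl
  have F : ∀ β : Bool, ∃ q q', Con ({w | ∃ j < N, w ∈ lpU (Sd R (cps x a b X Y false β j)) h} ∩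
      {w | -m ≤ w.1 - x.1 ∧ w.1 - x.1 ≤ m}) q q' ∧ q.1 - x.1 = -m ∧ q'.1 - x.1 = m := fun β => by
    refine chain_strip (φ := fun v : V => v.1 - x.1) hφ1 (hJ false β) hN hm0 ?_ ?_
    · show x.1 + cpx a X 0 - x.1 ≤ -m
      rw [e0]
      linarith
    · show m ≤ x.1 + cpx a X N - x.1
      rw [eN]
      linarith
  have T : ∀ β : Bool, ∃ q q', Con ({w | ∃ j < N, w ∈ lpU (Sd R (cps x a b X Y true β j)) h} ∩
      {w | -m ≤ w.2 - x.2 ∧ w.2 - x.2 ≤ m}) q q' ∧ q.2 - x.2 = -m ∧ q'.2 - x.2 = m := fun β => by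
    refine chain_strip (φ := fun v : V => v.2 - x.2) hφ2 (hJ true β) hN hm0 ?_ ?_
    · show x.2 + cpx a X 0 - x.2 ≤ -m
      rw [e0]
      linarith
    · show m ≤ x.2 + cpx a X N - x.2
      rw [eN]
      linarith
  refine ⟨?_, ?_, ?_, ?_⟩
  · obtain ⟨q, q', h1, h2, h3⟩ := F true
    refine ⟨q, q', h1.mono (fun _ _ h => h) ?_, by linarith, by linarith⟩
    rintro w ⟨⟨j, hj, hw⟩, hw1, hw2⟩
    have h4 := sd_across_f hY hb hb' hw.1
    have h5 : sgB true = 1 := rfl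
    rw [h5] at h4
    exact ⟨⟨false, true, j, hj, hw⟩, by linarith, by linarith, by linarith, by linarith⟩
  · obtain ⟨q, q', h1, h2, h3⟩ := F false
    refine ⟨q, q', h1.mono (fun _ _ h => h) ?_, by linarith, by linarith⟩
    rintro w ⟨⟨j, hj, hw⟩, hw1, hw2⟩
    have h4 := sd_across_f hY hb hb' hw.1
    have h5 : sgB false = -1 := rfl
    rw [h5] at h4
    exact ⟨⟨false, false, j, hj, hw⟩, by linarith, by linarith, by linarith, by linarith⟩
  · obtain ⟨q, q', h1, h2, h3⟩ := T false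
    refine ⟨q, q', h1.mono (fun _ _ h => h) ?_, by linarith, by linarith⟩
    rintro w ⟨⟨j, hj, hw⟩, hw1, hw2⟩
    have h4 := sd_across_t hY hb hb' hw.1
    have h5 : sgB false = -1 := rfl
    rw [h5] at h4
    exact ⟨⟨true, false, j, hj, hw⟩, by linarith, by linarith, by linarith, by linarith⟩
  · obtain ⟨q, q', h1, h2, h3⟩ := T true
    refine ⟨q, q', h1.mono (fun _ _ h => h) ?_, by linarith, by linarith⟩
    rintro w ⟨⟨j, hj, hw⟩, hw1, hw2⟩
    have h4 := sd_across_t hY hb hb' hw.1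
    have h5 : sgB true = 1 := rfl
    rw [h5] at h4
    exact ⟨⟨true, true, j, hj, hw⟩, by linarith, by linarith, by linarith, by linarith⟩

/-- on the event that all links are joined no path of `|h| ≤ 1` crosses -/
lemma lp_noc {h : V → ℤ} {R N : ℕ} {x : V} {a b X Y k m M : ℤ} (hY : Y = k + 1 + R)
    (hb : 0 ≤ b) (hb' : b ≤ 2 * k) (hm : m = 3 * k + 1 + 2 * R) (hk : 0 ≤ k) (hN : 0 < N)
    (hX0 : X ≤ -m) (hX1 : m ≤ X + N * a) (hM : m ≤ M)
    (hJ : ∀ ν β : Bool, ∀ j < N, Con (lpU (Sd R (cps x a b X Y ν β j)) h)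
      (cps x a b X Y ν β j) (cps x a b X Y ν β (j + 1))) :
    ¬ ∃ u ∈ Sq x k, ∃ v, v ∉ Sq x M ∧ Con {w | |h w| ≤ 1} u v := by
  rintro ⟨u, hu, v, hv, huv⟩
  have hF := lp_frame hY hb hb' hm hk hN hX0 hX1 hJ
  have h1 : KCon (comp {w | |h w| ≤ 1} u) u v :=
    (con_in_comp huv subset_rfl).mono (fun _ _ h => adj_kng h) Set.inter_subset_left
  obtain ⟨w, hw, ν, β, j, -, hw'⟩ := block_king (by omega) hF h1 hu fun h' => hv (Sq_mono hM h')
  exact lpU_exit hw' (Con.symm' hw) fun hu' => sd_out hY hb hb' hu' hu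

/-- LOOP from PAIR -/
theorem lp_of_pair {K : ℕ} {κ : ℝ} (hκ : 0 < κ) {s₀ : ℕ}
    (H : ∀ s : ℕ, s₀ ≤ s → ∃ v : V, Even (par v) ∧ κ * s ≤ max |(v.1 : ℝ)| |(v.2 : ℝ)| ∧
      |v.1| ≤ 2 * s ∧ |v.2| ≤ 2 * s ∧ ∀ (D : Finset V) (x : V), BdryPar D 0 → Even (par x) →
        KP.Box x (K * s) ⊆ D → 12 ≤ MD.cv D x (x.1 + v.1, x.2 + v.2)) :
    ∃ (c : ℝ) (K' n0 : ℤ), 0 < c ∧ c ≤ 1 ∧ 1 ≤ K' ∧ 1 ≤ n0 ∧ LP c K' n0 := by
  obtain ⟨N, hN⟩ : ∃ N : ℕ, N = ⌈(9 + 8 * (K : ℝ)) / κ⌉₊ + 1 := ⟨_, rfl⟩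
  have hN0 : 0 < N := by omega
  have hNκ : 9 + 8 * (K : ℝ) ≤ N * κ := by
    have h1 : (9 + 8 * (K : ℝ)) / κ ≤ N := by
      refine (Nat.le_ceil _).trans ?_
      rw [hN]
      push_cast
      linarith
    rwa [div_le_iff₀ hκ] at h1
  refine ⟨(2 / 3) ^ (4 * N), 6 + 6 * K + 2 * N, max s₀ 1, by positivity,
    pow_le_one₀ (by norm_num) (by norm_num), by omega, le_max_right _ _, ?_⟩
  intro n hn x D p Z hb hZD hpar hfree
  obtain ⟨k, rfl⟩ : ∃ k : ℕ, n = k := ⟨n.toNat, by omega⟩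
  have hk1 : 1 ≤ k := by omega
  have hks : s₀ ≤ k := by omega
  obtain ⟨v, hv1, hv2, hv3, hv4, hv5⟩ := H k hks
  obtain ⟨R, hR⟩ : ∃ R : ℕ, R = 2 * (K * k) := ⟨_, rfl⟩
  have hRe : Even R := hR ▸ even_two_mul _
  have hcv : 12 ≤ MD.cv (diam R) 0 v := by
    have h1 := hv5 (diam R) 0 (diam_bdryPar R hRe) (by simp [par]) fun y hy => by
      rw [KP.mem_Box] at hy
      rw [mem_diam, hR]
      simp only [Prod.fst_zero, Prod.snd_zero, sub_zero] at hy
      push_cast at hy ⊢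
      linarith [hy.1, hy.2]
    have e : ((0 : V).1 + v.1, (0 : V).2 + v.2) = v := by
      ext <;> simp
    rwa [e] at h1
  obtain ⟨a, b, hb0, hba, ha, hab, hc1, hc2⟩ := cv_norm hv1 hcv
  have ha2 : a ≤ 2 * k := by
    rw [ha]
    exact max_le hv3 hv4
  have haκ : κ * k ≤ a := by
    rw [ha]
    push_cast
    exact hv2
  -- geometry
  obtain ⟨m, hm⟩ : ∃ m : ℤ, m = 3 * k + 1 + 2 * R := ⟨_, rfl⟩
  obtain ⟨Y, hY⟩ : ∃ Y : ℤ, Y = k + 1 + R := ⟨_, rfl⟩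
  obtain ⟨X, hX1, hX2, hX3⟩ : ∃ X : ℤ, X ≤ -m ∧ -m - 1 ≤ X ∧ Even (par x + X + Y + p) := by
    rcases Int.even_or_odd (par x + -m + Y + p) with h | h
    · exact ⟨-m, le_rfl, by omega, h⟩
    · refine ⟨-m - 1, by omega, le_rfl, ?_⟩
      rw [Int.odd_iff] at h
      rw [Int.even_iff]
      omega
  have hkR : (1 : ℝ) ≤ k := by exact_mod_cast hk1
  have hNa : 2 * m + 1 ≤ N * a := by
    have h1 : (2 * m + 1 : ℝ) ≤ N * a := by
      have h2 : (N : ℝ) * (κ * k) ≤ N * a := mul_le_mul_of_nonneg_left haκ (Nat.cast_nonneg _)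
      have h3 : (9 + 8 * (K : ℝ)) * k ≤ N * κ * k := mul_le_mul_of_nonneg_right hNκ (by linarith)
      have h4 : (m : ℝ) = 3 * k + 1 + 2 * (2 * (K * k)) := by
        rw [hm, hR]
        push_cast
        ring
      rw [h4]
      nlinarith
    exact_mod_cast h1
  have hX4 : m ≤ X + N * a := by linarith
  have hkN : (k : ℤ) ≤ N * k := by
    have : (1 : ℤ) ≤ N := by omega
    nlinarith
  have hRk : (R : ℤ) = 2 * (K * k) := by
    rw [hR]
    push_cast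
    ring
  have hMM : (6 + 6 * (K : ℤ) + 2 * N) * k = 6 * k + 3 * R + 2 * (N * k) := by
    rw [hRk]
    ring
  have hcpx : ∀ j < N, |cpx a X j| ≤ m + 1 + 2 * (N * k) := by
    intro j hj
    have h1 : (0 : ℤ) ≤ j * a := mul_nonneg (Nat.cast_nonneg _) (hb0.trans hba)
    have h2 : (j : ℤ) * a ≤ N * (2 * k) :=
      mul_le_mul (by exact_mod_cast hj.le) ha2 (hb0.trans hba) (Nat.cast_nonneg _)
    have h3 : (0 : ℤ) ≤ N * k := by positivity
    unfold cpx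
    rw [abs_le]
    constructor
    · have : (0 : ℤ) ≤ m := by omega
      linarith
    · have : (0 : ℤ) ≤ m := by omega
      linarith
  have hin : ∀ (ν β : Bool), ∀ j < N, ∀ w ∈ Sd R (cps x a b X Y ν β j), w ∈ D ∧ w ∉ Z := by
    intro ν β j hj w hw
    have h1 := hcpx j hj
    refine hfree w ?_ fun h' => sd_out hY hb0 (hba.trans ha2) hw (Sq_mono (by omega) h')
    refine sd_in hY hb0 (hba.trans ha2) ?_ ?_ hw
    · rw [hMM]
      omega
    · rw [hMM]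
      omega
  -- the links
  have hfam := fam_Zs (D := D) (p := p) (Z := Z) hb
  have hne : (Zs D p Z).Nonempty := ⟨_, flat_mem_Zs hb hZD fun v hv => by
    have := hpar v hv
    rw [Int.even_sub]
    rwa [Int.even_add] at this⟩
  have key := (pr_all_inc hfam (lat_Tb D p Z 0) hne
    ((Finset.univ : Finset (Bool × Bool)) ×ˢ Finset.range N)
    (fun i h => Con (lpU (Sd R (cps x a b X Y i.1.1 i.1.2 i.2)) h)
      (cps x a b X Y i.1.1 i.1.2 i.2) (cps x a b X Y i.1.1 i.1.2 (i.2 + 1)))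
    (fun i _ => inc_lpU) (c := 2 / 3) (by norm_num) (fun i hi => by
      have hi' := Finset.mem_range.1 (Finset.mem_product.1 hi).2
      rw [cps_succ]
      exact link_env hb hZD hpar hRe (cps_par hab hX3 _ _ _) (hin _ _ _ hi')
        (cv_cst hc1 hc2 _ _ _))).1
  have hcard : ((Finset.univ : Finset (Bool × Bool)) ×ˢ Finset.range N).card = 4 * N := by
    rw [Finset.card_product, Finset.card_range]
    rfl
  rw [hcard] at key
  refine key.trans (pr_mono fun h _ hh => ?_)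
  refine lp_noc hY hb0 (hba.trans ha2) hm (Nat.cast_nonneg k) hN0 hX1 hX4 (M := _) ?_
    (fun ν β j hj => hh ((ν, β), j) (Finset.mem_product.2 ⟨Finset.mem_univ _,
      Finset.mem_range.2 hj⟩))
  rw [hMM]
  omega

end DV
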