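import Pool.Agent.Helper43.DV.Lf
import Pool.Agent.Helper14.KD.P

/-!
# Project DV (MP_973bc8_pr), block LOOP: the unconditional statement
-/

open Finset RP4

namespace DV

/-- LOOP: in every zero environment the annulus is blocked for paths of `|h| ≤ 1` with probability
bounded below -/
theorem exists_LP_J : ∃ (c : ℝ) (K n0 : ℤ), 0 < c ∧ c ≤ 1 ∧ 1 ≤ K ∧ 1 ≤ n0 ∧ LP c K n0 := by
  obtain ⟨K, -, κ, hκ, s₀, -, H⟩ := KD.pair 12
  exact lp_of_pair (K := K) hκ H

end DV
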