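import Pool.Agent.Helper43.DV.J
import Pool.Agent.Helper97.DV.Lq
import Pool.Agent.Helper63.RP4.T3

/-!
# Project DV (MP_973bc8_pr), block LOOP: one link of the chain in every zero environment

The diamond of radius `R` about `x`: the connection of `x` and `x + w` off the `|h| ≤ 1` cluster of the
boundary of the diamond has probability at least `2/3` in every zero environment off the diamond.
-/

open Finset RP4

namespace DV

/-- the diamond about `x` -/
noncomputable def Sd (R : ℕ) (x : V) : Finset V := img (trans x) (diam R)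

lemma mem_Sd {R : ℕ} {x v : V} : v ∈ Sd R x ↔ |v.1 - x.1| + |v.2 - x.2| ≤ R := by
  unfold Sd
  rw [T1_mem_img, mem_diam]
  have h1 : (trans x).symm v = v - x := by
    rw [Equiv.symm_apply_eq]
    exact (sub_add_cancel v x).symm
  rw [h1]
  rfl

lemma mem_bdry_Sd {R : ℕ} {x v : V} : v ∈ bdry (Sd R x) ↔ |v.1 - x.1| + |v.2 - x.2| = R := by
  unfold Sd
  rw [bdry_img (trans_lsym x), T1_mem_img, bdry_diam]
  have h1 : (trans x).symm v = v - x := by
    rw [Equiv.symm_apply_eq]
    exact (sub_add_cancel v x).symm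
  rw [h1]
  rfl

/-- the complement of a diamond is connected -/
lemma diam_compl_cnn (R : ℕ) : Cnn (diam R : Set V)ᶜ := by
  have hsub : (Sq (0 : V) (R : ℤ))ᶜ ⊆ (diam R : Set V)ᶜ := by
    intro v hv hv'
    rw [Finset.mem_coe, mem_diam] at hv'
    apply hv
    have h1 := abs_nonneg v.1
    have h2 := abs_nonneg v.2
    constructor
    · show |v.1 - 0| ≤ _
      rw [sub_zero]
      linarith
    · show |v.2 - 0| ≤ _
      rw [sub_zero]
      linarith
  have key : ∀ u ∈ (diam R : Set V)ᶜ, ∃ o ∈ (Sq (0 : V) (R : ℤ))ᶜ, Con (diam R : Set V)ᶜ u o := by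
    intro u hu
    obtain ⟨u1, u2⟩ := u
    have hu' : (R : ℤ) < |u1| + |u2| := by
      rw [Set.mem_compl_iff, Finset.mem_coe, mem_diam, not_le] at hu
      exact hu
    rcases le_or_gt 0 u1 with h1 | h1
    · refine ⟨(u1 + R + 1, u2), ?_, con_row' fun t ht ht' => ?_⟩
      · rw [Set.mem_compl_iff, not_mem_Sq]
        left
        show (0 : ℤ) + R < u1 + R + 1
        omega
      · rw [Set.mem_compl_iff, Finset.mem_coe, mem_diam, not_le]
        show (R : ℤ) < |t| + |u2|
        rw [abs_of_nonneg h1] at hu'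
        have h3 : min u1 (u1 + R + 1) = u1 := min_eq_left (by omega)
        rw [h3] at ht
        rw [abs_of_nonneg (by omega : (0 : ℤ) ≤ t)]
        linarith
    · refine ⟨(u1 - R - 1, u2), ?_, con_row' fun t ht ht' => ?_⟩
      · rw [Set.mem_compl_iff, not_mem_Sq]
        right; left
        show u1 - R - 1 < (0 : ℤ) - R
        omega
      · rw [Set.mem_compl_iff, Finset.mem_coe, mem_diam, not_le]
        show (R : ℤ) < |t| + |u2|
        rw [abs_of_neg h1] at hu'
        have h3 : max u1 (u1 - R - 1) = u1 := max_eq_left (by omega)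
        rw [h3] at ht'
        rw [abs_of_neg (by omega : t < 0)]
        linarith
  intro u hu v hv
  obtain ⟨o, ho, ho'⟩ := key u hu
  obtain ⟨o2, ho2, ho2'⟩ := key v hv
  exact (ho'.trans ((Sq_compl_cnn 0 R o ho o2 ho2).mono (fun _ _ h => h) hsub)).trans ho2'.symm'

section ev

variable {S : Finset V} {x y : V}

lemma lpU_congr {h h' : V → ℤ} (he : ∀ v ∈ S, |h v| = |h' v|) : lpU S h = lpU S h' := by
  have h1 : lpT (S : Set V) h = lpT (S : Set V) h' := by
    ext v
    show (v ∈ (S : Set V) ∧ |h v| ≤ 1) ↔ (v ∈ (S : Set V) ∧ |h' v| ≤ 1)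
    refine and_congr_right fun hv => ?_
    rw [he v hv]
  unfold lpU lpC
  rw [h1]

lemma inc_lpU : Inc fun h => Con (lpU S h) x y := by
  constructor
  · intro g
    show Con (lpU S (absf g)) x y ↔ Con (lpU S g) x y
    rw [lpU_congr (h := absf g) (h' := g) fun v _ => abs_abs (g v)]
  · intro g g' hg hgg' h
    refine h.mono (fun _ _ h => h) ?_
    rintro v ⟨hv, hv'⟩
    refine ⟨hv, fun h2 => hv' ?_⟩
    refine clus_mono (fun w hw => ?_) subset_rfl h2
    refine ⟨hw.1, ?_⟩
    have h3 := hw.2
    rw [abs_of_nonneg ((hg w).trans (hgg' w))] at h3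
    rw [abs_of_nonneg (hg w)]
    exact (hgg' w).trans h3

end ev

/-- the restriction to a subdomain with zero boundary values -/
theorem pr_restr {D S Z : Finset V} {p : ℤ} (hb : bdry D ⊆ Z) (hZD : Z ⊆ D)
    (hpar : ∀ v ∈ Z, Even (par v + p)) (hSD : S ⊆ D) (hSZ : ∀ v ∈ S, v ∉ Z)
    (hbS : ∀ v ∈ bdry S, Even (par v + p)) (E : (V → ℤ) → Prop)
    (hE : ∀ g g' : V → ℤ, (∀ v ∈ S, g v = g' v) → (E g ↔ E g')) :
    pr (Zs D p (Z ∪ bdry S)) E = pr (Zs S p (bdry S)) E := by
  classical
  have hb' : bdry D ⊆ Z ∪ bdry S := hb.trans subset_union_left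
  have hne : (Zs D p (Z ∪ bdry S)).Nonempty := by
    refine ⟨flat D p, flat_mem_Zs hb' (union_subset hZD ((bdry_subset S).trans hSD)) ?_⟩
    intro v hv
    have : Even (par v + p) := by
      rcases mem_union.1 hv with h | h
      · exact hpar v h
      · exact hbS v h
    rw [Int.even_sub]
    rwa [Int.even_add] at this
  have h1 := pr_lpIn (A := Zs D p (Z ∪ bdry S)) (B := Zs S p (bdry S)) (U := (S : Set V)) (c := 0)
    (fun g hg => by
      obtain ⟨g1, g2⟩ := (mem_Zs hb').1 hg
      refine (mem_Zs subset_rfl).2 ⟨⟨fun v hv => lpIn_not hv, fun v hv => ?_,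
        fun u hu v hv huv => ?_⟩, fun v hv => ?_⟩
      · rw [lpIn_mem (Finset.mem_coe.2 hv), sub_zero]
        exact g1.par v (hSD hv)
      · rw [lpIn_mem (Finset.mem_coe.2 hu), lpIn_mem (Finset.mem_coe.2 hv), sub_zero, sub_zero]
        exact g1.step u (hSD hu) v (hSD hv) huv
      · rw [lpIn_mem (Finset.mem_coe.2 (bdry_subset S hv)), sub_zero]
        exact g2 v (mem_union_right _ hv))
    (fun g hg b hbm => by
      obtain ⟨g1, g2⟩ := (mem_Zs hb').1 hg
      obtain ⟨b1, b2⟩ := (mem_Zs subset_rfl).1 hbm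
      have hB : ∀ v ∈ bdry S, lpGl (S : Set V) 0 b g v = g v := fun v hv => by
        rw [lpGl_mem (Finset.mem_coe.2 (bdry_subset S hv)), b2 v hv, g2 v (mem_union_right _ hv)]
        rfl
      refine (mem_Zs hb').2 ⟨⟨fun v hv => ?_, fun v hv => ?_, fun u hu v hv huv => ?_⟩,
        fun v hv => ?_⟩
      · rw [lpGl_not fun h => hv (hSD (Finset.mem_coe.1 h))]
        exact g1.off v hv
      · by_cases h : v ∈ S
        · rw [lpGl_mem (Finset.mem_coe.2 h), add_zero]
          exact b1.par v h
        · rw [lpGl_not (fun h' => h (Finset.mem_coe.1 h'))]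
          exact g1.par v hv
      · by_cases k1 : u ∈ S
        · by_cases k2 : v ∈ S
          · rw [lpGl_mem (Finset.mem_coe.2 k1), lpGl_mem (Finset.mem_coe.2 k2), add_zero, add_zero]
            exact b1.step u k1 v k2 huv
          · rw [hB u (mem_bdry.2 ⟨k1, v, adj_symm huv, k2⟩),
              lpGl_not (fun h' => k2 (Finset.mem_coe.1 h'))]
            exact g1.step u hu v hv huv
        · by_cases k2 : v ∈ S
          · rw [hB v (mem_bdry.2 ⟨k2, u, huv, k1⟩),
              lpGl_not (fun h' => k1 (Finset.mem_coe.1 h'))]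
            exact g1.step u hu v hv huv
          · rw [lpGl_not (fun h' => k1 (Finset.mem_coe.1 h')),
              lpGl_not (fun h' => k2 (Finset.mem_coe.1 h'))]
            exact g1.step u hu v hv huv
      · rcases mem_union.1 hv with h | h
        · rw [lpGl_not fun h' => hSZ v (Finset.mem_coe.1 h') h]
          exact g2 v hv
        · rw [hB v h]
          exact g2 v hv)
    (fun b hbm v hv => ((mem_Zs subset_rfl).1 hbm).1.off v fun h' => hv (Finset.mem_coe.2 h'))
    hne E
  rw [← h1]
  refine pr_congr fun g _ => ?_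
  refine hE _ _ fun v hv => ?_
  rw [lpIn_mem (Finset.mem_coe.2 hv), sub_zero]

/-- translation of the link event -/
theorem pr_trans {R : ℕ} {x w : V} {p : ℤ} (hx : Even (par x + p)) :
    pr (Om (diam R)) (fun h => Con (lpU (diam R) h) 0 w) ≤
      pr (Zs (Sd R x) p (bdry (Sd R x))) (fun h => Con (lpU (Sd R x) h) x (x + w)) := by
  classical
  have hS : Sd R x = img (trans x) (diam R) := rfl
  have ht : ∀ v, trans x v = v + x := fun v => rfl
  have hpar : ∀ v, Even (par (trans x v) + p - par v - 0) := fun v => by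
    rw [ht]
    unfold par at *
    rw [Int.even_iff] at hx ⊢
    simp only [Prod.fst_add, Prod.snd_add]
    omega
  have key := T1_avg (trans x) (Zs (Sd R x) p (bdry (Sd R x))) (Om (diam R))
    (fun h => if Con (lpU (diam R) h) 0 w then (1 : ℝ) else 0) (fun g hg => by
      obtain ⟨g1, g2⟩ := (mem_Zs subset_rfl).1 hg
      refine mem_Om.2 ⟨T1_isHom (trans_lsym x) hpar g1, fun v hv => g2 _ ?_⟩
      rw [hS, bdry_img (trans_lsym x)]
      exact T1_mem_img'.2 hv) (fun f hf => by
      obtain ⟨f1, f2⟩ := mem_Om.1 hf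
      refine (mem_Zs subset_rfl).2 ⟨T1_isHom (T1_symm (trans_lsym x)) (q := 0) (fun v => ?_) ?_,
        fun v hv => f2 _ ?_⟩
      · have := hpar ((trans x).symm v)
        rw [Equiv.apply_symm_apply] at this
        rw [Int.even_iff] at this ⊢
        omega
      · rw [hS, T1_img_symm]
        exact f1
      · rw [hS, bdry_img (trans_lsym x)] at hv
        exact T1_mem_img.1 hv)
  have h1 : pr (Om (diam R)) (fun h => Con (lpU (diam R) h) 0 w) =
      pr (Zs (Sd R x) p (bdry (Sd R x))) fun g => Con (lpU (diam R) fun v => g (trans x v)) 0 w :=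
    key.symm
  rw [h1]
  refine pr_mono fun g _ hg => ?_
  have h2 := Jn.map (r' := Adj) (T := lpU (Sd R x) g) (trans x)
    (fun a b hab => ((trans_lsym x).adj a b).2 hab) (fun a ha => ?_) hg
  · have e1 : trans x 0 = x := by rw [ht, zero_add]
    have e2 : trans x w = x + w := by rw [ht, add_comm]
    rw [e1, e2] at h2
    exact h2
  · refine ⟨T1_mem_img'.2 ha.1, fun h3 => ha.2 ?_⟩
    obtain ⟨b, hb, hb'⟩ := h3
    have hb2 : (trans x).symm b ∈ bdry (diam R) := by
      rw [Finset.mem_coe, hS, bdry_img (trans_lsym x)] at hb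
      exact T1_mem_img.1 hb
    refine ⟨(trans x).symm b, Finset.mem_coe.2 hb2, ?_⟩
    have h4 := Jn.map (r' := Adj) (T := lpT (diam R : Set V) fun v => g (trans x v)) (trans x).symm
      (fun a b hab => ((T1_symm (trans_lsym x)).adj a b).2 hab) (fun a ha => ?_) hb'
    · rw [Equiv.symm_apply_apply] at h4
      exact h4
    · refine ⟨?_, ?_⟩
      · have := ha.1
        rw [Finset.mem_coe, hS] at this
        exact T1_mem_img.1 this
      · show |g (trans x ((trans x).symm a))| ≤ 1
        rw [Equiv.apply_symm_apply]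
        exact ha.2

/-- one link of the chain in a zero environment off the diamond -/
theorem link_env {D Z : Finset V} {p : ℤ} (hb : bdry D ⊆ Z) (hZD : Z ⊆ D)
    (hpar : ∀ v ∈ Z, Even (par v + p)) {R : ℕ} (hR : Even R) {x w : V} (hx : Even (par x + p))
    (hS : ∀ v ∈ Sd R x, v ∈ D ∧ v ∉ Z) (hw : 12 ≤ MD.cv (diam R) 0 w) :
    2 / 3 ≤ pr (Zs D p Z) fun h => Con (lpU (Sd R x) h) x (x + w) := by
  classical
  have h1 := lp_two_thirds (diam_bdryPar R hR) (diam_compl_cnn R) hw
  refine h1.trans ((pr_trans hx).trans ?_)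
  have hbS : ∀ v ∈ bdry (Sd R x), Even (par v + p) := by
    intro v hv
    rw [mem_bdry_Sd] at hv
    have hR' : Even (R : ℤ) := by exact_mod_cast hR
    rw [← hv, Int.even_add, even_abs, even_abs, ← Int.even_add] at hR'
    unfold par at *
    rw [Int.even_iff] at hx hR' ⊢
    omega
  rw [← pr_restr hb hZD hpar (fun v hv => (hS v hv).1) (fun v hv => (hS v hv).2) hbS _
    (fun g g' h => by rw [lpU_congr fun v hv => by rw [h v hv]])]
  have hI : Inc fun h => Con (lpU (Sd R x) h) x (x + w) := inc_lpU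
  refine abs_fkg_gen D p Z (Z ∪ bdry (Sd R x)) hb subset_union_left
    (union_subset hZD fun v hv => (hS v (bdry_subset _ hv)).1) (fun v hv => ?_) _
    hI.incF.nonneg hI.incF.abs hI.incF.mono
  have : Even (par v + p) := by
    rcases mem_union.1 hv with h | h
    · exact hpar v h
    · exact hbS v h
  rw [Int.even_sub]
  rwa [Int.even_add] at this

end DV
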